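import Pool.Agent.R651.Asc.Defs

/-!
# Colourful triangulations of a convex polygon and the twist graph: definitions

The vertices of the convex `N`-gon are the elements of `Fin N` in cyclic order; the vertex `v` is the
vertex with the number `v + 1` in the problem.
-/

set_option autoImplicit false

namespace Pool.Agent.N372.TW

open Pool.Agent.R651.Asc

/-- The vertices `a < b` are joined in `T`: the segment `a b` is a diagonal that belongs to `T` or it
is a side of the polygon. -/
def Joined {N : ℕ} (T : Finset (Fin N × Fin N)) (a b : Fin N) : Prop :=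
  a < b ∧ ((a, b) ∈ T ∨ (a : ℕ) + 1 = b ∨ ((a : ℕ) = 0 ∧ (b : ℕ) + 1 = N))

/-- The colour of a vertex: `0` (red), `1` (blue) or `2` (green), periodically. -/
def colour {N : ℕ} (v : Fin N) : ℕ := (v : ℕ) % 3

/-- A colourful triangulation: a triangulation (a maximal set of pairwise non-crossing diagonals)
every triangle `a b c` of which has vertices of three different colours. -/
def IsColourful (N : ℕ) (T : Finset (Fin N × Fin N)) : Prop :=
  IsTriangulation N T ∧ ∀ a b c : Fin N, Joined T a b → Joined T b c → Joined T a c →
    colour a ≠ colour b ∧ colour b ≠ colour c ∧ colour a ≠ colour c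

/-- `h 0 < h 1 < ⋯ < h 5` are the vertices of a hexagon all of whose sides are joined in `T`. -/
def IsHexagon {N : ℕ} (T : Finset (Fin N × Fin N)) (h : Fin 6 → Fin N) : Prop :=
  StrictMono h ∧ Joined T (h 0) (h 1) ∧ Joined T (h 1) (h 2) ∧ Joined T (h 2) (h 3) ∧
    Joined T (h 3) (h 4) ∧ Joined T (h 4) (h 5) ∧ Joined T (h 0) (h 5)

/-- The sides of the inner triangle `h 0, h 2, h 4` of the hexagon. -/
def innerA {N : ℕ} (h : Fin 6 → Fin N) : Finset (Fin N × Fin N) :=
  {(h 0, h 2), (h 2, h 4), (h 0, h 4)}

/-- The sides of the inner triangle `h 1, h 3, h 5` of the hexagon. -/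
def innerB {N : ℕ} (h : Fin 6 → Fin N) : Finset (Fin N × Fin N) :=
  {(h 1, h 3), (h 3, h 5), (h 1, h 5)}

/-- `T'` is obtained from `T` by one twist: `T` contains the three sides of one of the two inner
triangles of a hexagon whose sides are joined in `T`, and these three diagonals are replaced by the
sides of the other inner triangle. -/
def IsTwist {N : ℕ} (T T' : Finset (Fin N × Fin N)) : Prop :=
  ∃ h : Fin 6 → Fin N, IsHexagon T h ∧
    ((innerA h ⊆ T ∧ T' = (T \ innerA h) ∪ innerB h) ∨
      (innerB h ⊆ T ∧ T' = (T \ innerB h) ∪ innerA h))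

/-- The graph `H_N`: its vertices are the colourful triangulations of the convex `N`-gon, and two
different ones are adjacent when one is obtained from the other by one twist. -/
def twistGraph (N : ℕ) : SimpleGraph {T : Finset (Fin N × Fin N) // IsColourful N T} :=
  SimpleGraph.fromRel fun T T' => IsTwist T.1 T'.1

end Pool.Agent.N372.TW
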