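import Pool.Agent.N372.TW.Tree

/-!
# Twists of trees are twists of the sets of pairs
-/

set_option autoImplicit false

namespace Pool.Agent.N372.TW

open Pool.Agent.R651.Asc Pool.Agent.R68.AscP

/-- `a < b` are joined by a pair of `S` or by a side -/
def JN (S : Finset (ℕ × ℕ)) (a b : ℕ) : Prop := (a, b) ∈ S ∨ b = a + 1

theorem base_jn (i : ℕ) (t : BT) : JN (E i t) i (i + t.size + 1) := by
  rcases Nat.eq_zero_or_pos t.size with h | h
  · right; omega
  · left; exact base_mem h

theorem jn_mono {S T : Finset (ℕ × ℕ)} (h : S ⊆ T) {a b : ℕ} (hab : JN S a b) : JN T a b := by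
  rcases hab with h1 | h1
  · exact Or.inl (h h1)
  · exact Or.inr h1

/-- the set `S'` is obtained from `S` by the twist of the hexagon `h0, …, h5` -/
structure Sw (S S' : Finset (ℕ × ℕ)) (h0 h1 h2 h3 h4 h5 : ℕ) : Prop where
  lt0 : h0 < h1
  lt1 : h1 < h2
  lt2 : h2 < h3
  lt3 : h3 < h4
  lt4 : h4 < h5
  j0 : JN S h0 h1
  j1 : JN S h1 h2
  j2 : JN S h2 h3
  j3 : JN S h3 h4
  j4 : JN S h4 h5
  j5 : JN S h0 h5
  m0 : (h0, h2) ∈ S
  m1 : (h2, h4) ∈ S
  m2 : (h0, h4) ∈ S
  sw : ∀ x, x ∈ S' ↔ (x = (h1, h3) ∨ x = (h3, h5) ∨ x = (h1, h5)) ∨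
    ((x ≠ (h0, h2) ∧ x ≠ (h2, h4) ∧ x ≠ (h0, h4)) ∧ x ∈ S)

theorem pne1 {a b c d : ℕ} (h : a ≠ c) : ((a, b) : ℕ × ℕ) ≠ (c, d) := fun e => h (congrArg Prod.fst e)
theorem pne2 {a b c d : ℕ} (h : b ≠ d) : ((a, b) : ℕ × ℕ) ≠ (c, d) := fun e => h (congrArg Prod.snd e)

theorem tw_sw {s t : BT} (h : Tw s t) : ∀ i : ℕ, ∃ h0 h1 h2 h3 h4 h5 : ℕ, i ≤ h0 ∧
    h5 ≤ i + s.size + 1 ∧ Sw (E i s) (E i t) h0 h1 h2 h3 h4 h5 := by
  induction h with
  | root a b c d e =>
    intro i
    have ha := (full a i).rg
    have hb := (full b (i + a.size + 1)).rg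
    have hc := (full c (i + a.size + b.size + 2)).rg
    have hd := (full d (i + a.size + b.size + c.size + 3)).rg
    have he := (full e (i + a.size + b.size + c.size + d.size + 4)).rg
    have hs : ∀ x, x ∈ E i (.node (.node (.node a b) (.node c d)) e) ↔
        x = (i, i + a.size + b.size + c.size + d.size + e.size + 5) ∨
        x = (i, i + a.size + b.size + c.size + d.size + 4) ∨
        x = (i, i + a.size + b.size + 2) ∨
        x = (i + a.size + b.size + 2, i + a.size + b.size + c.size + d.size + 4) ∨
        x ∈ E i a ∨ x ∈ E (i + a.size + 1) b ∨ x ∈ E (i + a.size + b.size + 2) c ∨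
        x ∈ E (i + a.size + b.size + c.size + 3) d ∨
        x ∈ E (i + a.size + b.size + c.size + d.size + 4) e := by
      intro x
      rw [mem_node, mem_node, mem_node, mem_node]
      have e1 : i + (BT.node (.node a b) (.node c d)).size + e.size + 2 =
        i + a.size + b.size + c.size + d.size + e.size + 5 := by simp only [BT.size]; omega
      have e2 : i + (BT.node a b).size + (BT.node c d).size + 2 =
        i + a.size + b.size + c.size + d.size + 4 := by simp only [BT.size]; omega
      have e3 : i + (BT.node a b).size + 1 = i + a.size + b.size + 2 := by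
        simp only [BT.size]; omega
      have e4 : i + (BT.node (.node a b) (.node c d)).size + 1 =
        i + a.size + b.size + c.size + d.size + 4 := by simp only [BT.size]; omega
      have e5 : i + a.size + b.size + 2 + c.size + d.size + 2 =
        i + a.size + b.size + c.size + d.size + 4 := by omega
      have e6 : i + a.size + b.size + 2 + c.size + 1 = i + a.size + b.size + c.size + 3 := by omega
      rw [e1, e2, e3, e4, e5, e6]
      tauto
    have ht : ∀ x, x ∈ E i (.node a (.node (.node b c) (.node d e))) ↔
        x = (i, i + a.size + b.size + c.size + d.size + e.size + 5) ∨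
        x = (i + a.size + 1, i + a.size + b.size + c.size + d.size + e.size + 5) ∨
        x = (i + a.size + 1, i + a.size + b.size + c.size + 3) ∨
        x = (i + a.size + b.size + c.size + 3,
          i + a.size + b.size + c.size + d.size + e.size + 5) ∨
        x ∈ E i a ∨ x ∈ E (i + a.size + 1) b ∨ x ∈ E (i + a.size + b.size + 2) c ∨
        x ∈ E (i + a.size + b.size + c.size + 3) d ∨
        x ∈ E (i + a.size + b.size + c.size + d.size + 4) e := by
      intro x
      rw [mem_node, mem_node, mem_node, mem_node]
      have e1 : i + a.size + (BT.node (.node b c) (.node d e)).size + 2 =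
        i + a.size + b.size + c.size + d.size + e.size + 5 := by simp only [BT.size]; omega
      have e2 : i + a.size + 1 + (BT.node b c).size + (BT.node d e).size + 2 =
        i + a.size + b.size + c.size + d.size + e.size + 5 := by simp only [BT.size]; omega
      have e3 : i + a.size + 1 + b.size + c.size + 2 = i + a.size + b.size + c.size + 3 := by omega
      have e4 : i + a.size + 1 + (BT.node b c).size + 1 = i + a.size + b.size + c.size + 3 := by
        simp only [BT.size]; omega
      have e5 : i + a.size + b.size + c.size + 3 + d.size + e.size + 2 =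
        i + a.size + b.size + c.size + d.size + e.size + 5 := by omega
      have e6 : i + a.size + b.size + c.size + 3 + d.size + 1 =
        i + a.size + b.size + c.size + d.size + 4 := by omega
      have e7 : i + a.size + 1 + b.size + 1 = i + a.size + b.size + 2 := by omega
      rw [e1, e2, e3, e4, e5, e6, e7]
      tauto
    refine ⟨i, i + a.size + 1, i + a.size + b.size + 2, i + a.size + b.size + c.size + 3,
      i + a.size + b.size + c.size + d.size + 4,
      i + a.size + b.size + c.size + d.size + e.size + 5, le_rfl, ?_, ?_⟩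
    · simp only [BT.size]; omega
    have sa : E i a ⊆ E i (.node (.node (.node a b) (.node c d)) e) := fun x hx => (hs x).2 (by tauto)
    have sb : E (i + a.size + 1) b ⊆ E i (.node (.node (.node a b) (.node c d)) e) :=
      fun x hx => (hs x).2 (by tauto)
    have sc : E (i + a.size + b.size + 2) c ⊆ E i (.node (.node (.node a b) (.node c d)) e) :=
      fun x hx => (hs x).2 (by tauto)
    have sd : E (i + a.size + b.size + c.size + 3) d ⊆
      E i (.node (.node (.node a b) (.node c d)) e) := fun x hx => (hs x).2 (by tauto)
    have se : E (i + a.size + b.size + c.size + d.size + 4) e ⊆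
      E i (.node (.node (.node a b) (.node c d)) e) := fun x hx => (hs x).2 (by tauto)
    refine ⟨by omega, by omega, by omega, by omega, by omega, ?_, ?_, ?_, ?_, ?_, ?_, ?_, ?_, ?_, ?_⟩
    · exact jn_mono sa (base_jn i a)
    · have := jn_mono sb (base_jn _ b)
      rwa [show i + a.size + 1 + b.size + 1 = i + a.size + b.size + 2 by omega] at this
    · have := jn_mono sc (base_jn _ c)
      rwa [show i + a.size + b.size + 2 + c.size + 1 = i + a.size + b.size + c.size + 3 by omega]
        at this
    · have := jn_mono sd (base_jn _ d)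
      rwa [show i + a.size + b.size + c.size + 3 + d.size + 1 =
        i + a.size + b.size + c.size + d.size + 4 by omega] at this
    · have := jn_mono se (base_jn _ e)
      rwa [show i + a.size + b.size + c.size + d.size + 4 + e.size + 1 =
        i + a.size + b.size + c.size + d.size + e.size + 5 by omega] at this
    · left; rw [hs]; tauto
    · rw [hs]; tauto
    · rw [hs]; tauto
    · rw [hs]; tauto
    · intro x
      rw [ht, hs]
      constructor
      · rintro (h | h | h | h | h | h | h | h | h)
        · refine Or.inr ⟨?_, Or.inl h⟩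
          rw [h]
          refine ⟨pne2 (by omega), pne2 (by omega), pne2 (by omega)⟩
        · left; tauto
        · left; tauto
        · left; tauto
        · have := ha x h
          refine Or.inr ⟨⟨?_, ?_, ?_⟩, by tauto⟩ <;>
          · rintro rfl
            simp only at this
            omega
        · have := hb x h
          refine Or.inr ⟨⟨?_, ?_, ?_⟩, by tauto⟩ <;>
          · rintro rfl
            simp only at this
            omega
        · have := hc x h
          refine Or.inr ⟨⟨?_, ?_, ?_⟩, by tauto⟩ <;>
          · rintro rfl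
            simp only at this
            omega
        · have := hd x h
          refine Or.inr ⟨⟨?_, ?_, ?_⟩, by tauto⟩ <;>
          · rintro rfl
            simp only at this
            omega
        · have := he x h
          refine Or.inr ⟨⟨?_, ?_, ?_⟩, by tauto⟩ <;>
          · rintro rfl
            simp only at this
            omega
      · tauto
  | @left l l' r h ih =>
    intro i
    obtain ⟨h0, h1, h2, h3, h4, h5, hi, hk, H⟩ := ih i
    have hsz := tw_size h
    have hr := full r (i + l.size + 1)
    have hl := full l i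
    have hl' := full l' i
    have sub : E i l ⊆ E i (.node l r) := fun x hx => mem_node.2 (Or.inr (Or.inl hx))
    refine ⟨h0, h1, h2, h3, h4, h5, hi, by simp only [BT.size]; omega, H.lt0, H.lt1, H.lt2, H.lt3,
      H.lt4, jn_mono sub H.j0, jn_mono sub H.j1, jn_mono sub H.j2, jn_mono sub H.j3,
      jn_mono sub H.j4, jn_mono sub H.j5, sub H.m0, sub H.m1, sub H.m2, ?_⟩
    have q0 := H.lt0
    have q1 := H.lt1
    have q2 := H.lt2
    have q3 := H.lt3
    have q4 := H.lt4
    intro x
    rw [mem_node, mem_node, ← hsz, H.sw]
    constructor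
    · rintro (h6 | (h6 | ⟨h6, h7⟩) | h6)
      · refine Or.inr ⟨?_, Or.inl h6⟩
        rw [h6]
        refine ⟨?_, ?_, ?_⟩ <;>
        · intro h8
          have := congrArg Prod.snd h8
          simp only at this
          omega
      · exact Or.inl h6
      · exact Or.inr ⟨h6, Or.inr (Or.inl h7)⟩
      · refine Or.inr ⟨?_, Or.inr (Or.inr h6)⟩
        have := hr.rg x h6
        refine ⟨?_, ?_, ?_⟩ <;>
        · rintro rfl
          simp only at this
          omega
    · rintro (h6 | ⟨h6, h7 | h7 | h7⟩)
      · exact Or.inr (Or.inl (Or.inl h6))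
      · exact Or.inl h7
      · exact Or.inr (Or.inl (Or.inr ⟨h6, h7⟩))
      · exact Or.inr (Or.inr h7)
  | @right l r r' h ih =>
    intro i
    obtain ⟨h0, h1, h2, h3, h4, h5, hi, hk, H⟩ := ih (i + l.size + 1)
    have hsz := tw_size h
    have hl := full l i
    have sub : E (i + l.size + 1) r ⊆ E i (.node l r) :=
      fun x hx => mem_node.2 (Or.inr (Or.inr hx))
    refine ⟨h0, h1, h2, h3, h4, h5, by omega, by simp only [BT.size]; omega, H.lt0, H.lt1, H.lt2,
      H.lt3, H.lt4, jn_mono sub H.j0, jn_mono sub H.j1, jn_mono sub H.j2, jn_mono sub H.j3,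
      jn_mono sub H.j4, jn_mono sub H.j5, sub H.m0, sub H.m1, sub H.m2, ?_⟩
    have q0 := H.lt0
    have q1 := H.lt1
    have q2 := H.lt2
    have q3 := H.lt3
    have q4 := H.lt4
    intro x
    rw [mem_node, mem_node, ← hsz, H.sw]
    constructor
    · rintro (h6 | h6 | (h6 | ⟨h6, h7⟩))
      · refine Or.inr ⟨?_, Or.inl h6⟩
        rw [h6]
        refine ⟨?_, ?_, ?_⟩ <;>
        · intro h8
          have := congrArg Prod.fst h8
          simp only at this
          omega
      · refine Or.inr ⟨?_, Or.inr (Or.inl h6)⟩
        have := hl.rg x h6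
        refine ⟨?_, ?_, ?_⟩ <;>
        · rintro rfl
          simp only at this
          omega
      · exact Or.inl h6
      · exact Or.inr ⟨h6, Or.inr (Or.inr h7)⟩
    · rintro (h6 | ⟨h6, h7 | h7 | h7⟩)
      · exact Or.inr (Or.inr (Or.inl h6))
      · exact Or.inl h7
      · exact Or.inr (Or.inl h7)
      · exact Or.inr (Or.inr (Or.inr ⟨h6, h7⟩))

end Pool.Agent.N372.TW
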