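import Pool.Agent.N372.TW.Defs
import Pool.Agent.N372.TW.Swap

/-!
# Connectivity of the twist graph
-/

set_option autoImplicit false

namespace Pool.Agent.N372.TW

open Pool.Agent.R651.Asc Pool.Agent.R68.AscP

/-! ### Trees and colourful triangulations -/

theorem joined_iff {n : ℕ} (hn : 1 ≤ n) {t : BT} (ht : t.size = n) (a b : Fin (n + 2)) :
    Joined (DT n t) a b ↔ (a : ℕ) < b ∧ JN (E 0 t) a b := by
  unfold Joined JN
  rw [mem_DT]
  have hb := base_in hn ht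
  have e : vl (a, b) = ((a : ℕ), (b : ℕ)) := rfl
  rw [e]
  constructor
  · rintro ⟨h1, h2 | h2 | h2⟩
    · exact ⟨h1, Or.inl h2.1⟩
    · exact ⟨h1, Or.inr h2.symm⟩
    · refine ⟨h1, Or.inl ?_⟩
      have : ((a : ℕ), (b : ℕ)) = (0, n + 1) := Prod.ext h2.1 (by simp only; omega)
      rw [this]
      exact hb
  · rintro ⟨h1, h2 | h2⟩
    · refine ⟨h1, ?_⟩
      by_cases h3 : ((a : ℕ), (b : ℕ)) = (0, n + 1)
      · right; right
        have h4 := congrArg Prod.fst h3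
        have h5 := congrArg Prod.snd h3
        simp only at h4 h5
        exact ⟨h4, by omega⟩
      · exact Or.inl ⟨h2, h3⟩
    · exact ⟨h1, Or.inr (Or.inl h2.symm)⟩

theorem col_pairs : ∀ (t : BT) (b : Bool) (i : ℕ), col b t → ∀ x ∈ E i t, (x.2 - x.1) % 3 ≠ 0 := by
  intro t
  induction t with
  | leaf => intro b i _ x hx; simp [E] at hx
  | node l r ihl ihr =>
    intro b i h x hx
    have hs := col_size _ b h
    simp only [BT.size] at hs
    have h' : col (!b) l ∧ col (!b) r := by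
      cases b <;> exact h
    rw [mem_node] at hx
    rcases hx with rfl | hx | hx
    · simp only
      cases b <;> simp at hs <;> omega
    · exact ihl _ _ h'.1 x hx
    · exact ihr _ _ h'.2 x hx

theorem jn_ne {t : BT} {b : Bool} {i : ℕ} (h : col b t) {x y : ℕ} (hxy : x < y)
    (hj : JN (E i t) x y) : x % 3 ≠ y % 3 := by
  rcases hj with h1 | h1
  · have := col_pairs t b i h _ h1
    simp only at this
    omega
  · omega

theorem colourful_of_col {n : ℕ} (hn : 1 ≤ n) {t : BT} (ht : t.size = n) {b : Bool}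
    (hc : col b t) : IsColourful (n + 2) (DT n t) := by
  refine ⟨isTri ht, ?_⟩
  intro x y z h1 h2 h3
  rw [joined_iff hn ht] at h1 h2 h3
  exact ⟨jn_ne hc h1.1 h1.2, jn_ne hc h2.1 h2.2, jn_ne hc h3.1 h3.2⟩

theorem col_of_triangles : ∀ (t : BT) (i : ℕ),
    (∀ a b c, a < b → b < c → JN (E i t) a b → JN (E i t) b c → JN (E i t) a c →
      a % 3 ≠ b % 3 ∧ b % 3 ≠ c % 3 ∧ a % 3 ≠ c % 3) →
    (t.size % 3 = 0 → col false t) ∧ (t.size % 3 = 1 → col true t) := by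
  intro t
  induction t with
  | leaf => intro i _; simp [col, BT.size]
  | node l r ihl ihr =>
    intro i H
    have sl : E i l ⊆ E i (.node l r) := fun x hx => mem_node.2 (Or.inr (Or.inl hx))
    have sr : E (i + l.size + 1) r ⊆ E i (.node l r) := fun x hx => mem_node.2 (Or.inr (Or.inr hx))
    have h0 := H i (i + l.size + 1) (i + l.size + r.size + 2) (by omega) (by omega)
      (jn_mono sl (base_jn i l)) (by
        have := jn_mono sr (base_jn _ r)
        rwa [show i + l.size + 1 + r.size + 1 = i + l.size + r.size + 2 by omega] at this)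
      (Or.inl (mem_node.2 (Or.inl rfl)))
    have hl := ihl i fun a b c h1 h2 h3 h4 h5 =>
      H a b c h1 h2 (jn_mono sl h3) (jn_mono sl h4) (jn_mono sl h5)
    have hr := ihr (i + l.size + 1) fun a b c h1 h2 h3 h4 h5 =>
      H a b c h1 h2 (jn_mono sr h3) (jn_mono sr h4) (jn_mono sr h5)
    constructor
    · intro hs
      simp only [BT.size] at hs
      exact ⟨hl.2 (by omega), hr.2 (by omega)⟩
    · intro hs
      simp only [BT.size] at hs
      exact ⟨hl.1 (by omega), hr.1 (by omega)⟩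

theorem tree_of_colourful {n : ℕ} (hn : 1 ≤ n) (h3 : n % 3 = 0)
    {T : Finset (Fin (n + 2) × Fin (n + 2))} (hT : IsColourful (n + 2) T) :
    ∃ t : BT, t.size = n ∧ col false t ∧ DT n t = T := by
  obtain ⟨t, ht, rfl⟩ := DT_surj hn T hT.1
  refine ⟨t, ht, (col_of_triangles t 0 ?_).1 (by rw [ht]; exact h3), rfl⟩
  intro a b c hab hbc h1 h2 h4
  have hF := full0 ht
  have lt : ∀ x y, x < y → JN (E 0 t) x y → y < c + 1 → c < n + 2 → True := fun _ _ _ _ _ _ => trivial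
  have hc : c < n + 2 := by
    rcases h4 with h | h
    · have := hF.rg _ h; simp only at this; omega
    · omega
  have := hT.2 ⟨a, by omega⟩ ⟨b, by omega⟩ ⟨c, hc⟩
    ((joined_iff hn ht _ _).2 ⟨hab, h1⟩) ((joined_iff hn ht _ _).2 ⟨hbc, h2⟩)
    ((joined_iff hn ht _ _).2 ⟨show a < c by omega, h4⟩)
  exact this

/-! ### Twists of trees are twists of triangulations -/

theorem vl_ne {N : ℕ} {z w : Fin N × Fin N} : vl z ≠ vl w ↔ z ≠ w :=
  ⟨fun h e => h (by rw [e]), fun h e => h (vl_inj e)⟩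

theorem isTwist_of_tw {n : ℕ} (hn : 1 ≤ n) {s t : BT} (hs : s.size = n) (h : Tw s t) :
    IsTwist (DT n s) (DT n t) := by
  obtain ⟨h0, h1, h2, h3, h4, h5, -, hk, H⟩ := tw_sw h 0
  have ht : t.size = n := (tw_size h).symm.trans hs
  have q0 := H.lt0
  have q1 := H.lt1
  have q2 := H.lt2
  have q3 := H.lt3
  have q4 := H.lt4
  have hk' : h5 < n + 2 := by omega
  refine ⟨![⟨h0, by omega⟩, ⟨h1, by omega⟩, ⟨h2, by omega⟩, ⟨h3, by omega⟩, ⟨h4, by omega⟩,
    ⟨h5, hk'⟩], ⟨?_, ?_, ?_, ?_, ?_, ?_, ?_⟩, Or.inl ⟨?_, ?_⟩⟩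
  · rw [Fin.strictMono_iff_lt_succ]
    intro i
    fin_cases i
    · exact q0
    · exact q1
    · exact q2
    · exact q3
    · exact q4
  · exact (joined_iff hn hs _ _).2 ⟨q0, H.j0⟩
  · exact (joined_iff hn hs _ _).2 ⟨q1, H.j1⟩
  · exact (joined_iff hn hs _ _).2 ⟨q2, H.j2⟩
  · exact (joined_iff hn hs _ _).2 ⟨q3, H.j3⟩
  · exact (joined_iff hn hs _ _).2 ⟨q4, H.j4⟩
  · exact (joined_iff hn hs _ _).2 ⟨show h0 < h5 by omega, H.j5⟩
  · intro z hz
    simp only [innerA, Finset.mem_insert, Finset.mem_singleton] at hz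
    rw [mem_DT]
    rcases hz with rfl | rfl | rfl
    · exact ⟨H.m0, pne2 (show h2 ≠ n + 1 by omega)⟩
    · exact ⟨H.m1, pne2 (show h4 ≠ n + 1 by omega)⟩
    · exact ⟨H.m2, pne2 (show h4 ≠ n + 1 by omega)⟩
  · ext z
    rw [Finset.mem_union, Finset.mem_sdiff, mem_DT, mem_DT, H.sw]
    simp only [innerA, innerB, Finset.mem_insert, Finset.mem_singleton]
    have e : ∀ (x y : ℕ) (hx : x < n + 2) (hy : y < n + 2),
        z = ((⟨x, hx⟩ : Fin (n + 2)), (⟨y, hy⟩ : Fin (n + 2))) ↔ vl z = (x, y) := by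
      intro x y hx hy
      constructor
      · rintro rfl; rfl
      · intro h6
        exact vl_inj (h6.trans rfl)
    have a1 : (z = (![⟨h0, by omega⟩, ⟨h1, by omega⟩, ⟨h2, by omega⟩, ⟨h3, by omega⟩, ⟨h4, by omega⟩,
      ⟨h5, hk'⟩] 0, ![⟨h0, by omega⟩, ⟨h1, by omega⟩, ⟨h2, by omega⟩, ⟨h3, by omega⟩,
      ⟨h4, by omega⟩, ⟨h5, hk'⟩] 2) : Prop) ↔ vl z = (h0, h2) := e h0 h2 _ _
    have a2 : (z = (![⟨h0, by omega⟩, ⟨h1, by omega⟩, ⟨h2, by omega⟩, ⟨h3, by omega⟩, ⟨h4, by omega⟩,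
      ⟨h5, hk'⟩] 2, ![⟨h0, by omega⟩, ⟨h1, by omega⟩, ⟨h2, by omega⟩, ⟨h3, by omega⟩,
      ⟨h4, by omega⟩, ⟨h5, hk'⟩] 4) : Prop) ↔ vl z = (h2, h4) := e h2 h4 _ _
    have a3 : (z = (![⟨h0, by omega⟩, ⟨h1, by omega⟩, ⟨h2, by omega⟩, ⟨h3, by omega⟩, ⟨h4, by omega⟩,
      ⟨h5, hk'⟩] 0, ![⟨h0, by omega⟩, ⟨h1, by omega⟩, ⟨h2, by omega⟩, ⟨h3, by omega⟩,
      ⟨h4, by omega⟩, ⟨h5, hk'⟩] 4) : Prop) ↔ vl z = (h0, h4) := e h0 h4 _ _
    have b1 : (z = (![⟨h0, by omega⟩, ⟨h1, by omega⟩, ⟨h2, by omega⟩, ⟨h3, by omega⟩, ⟨h4, by omega⟩,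
      ⟨h5, hk'⟩] 1, ![⟨h0, by omega⟩, ⟨h1, by omega⟩, ⟨h2, by omega⟩, ⟨h3, by omega⟩,
      ⟨h4, by omega⟩, ⟨h5, hk'⟩] 3) : Prop) ↔ vl z = (h1, h3) := e h1 h3 _ _
    have b2 : (z = (![⟨h0, by omega⟩, ⟨h1, by omega⟩, ⟨h2, by omega⟩, ⟨h3, by omega⟩, ⟨h4, by omega⟩,
      ⟨h5, hk'⟩] 3, ![⟨h0, by omega⟩, ⟨h1, by omega⟩, ⟨h2, by omega⟩, ⟨h3, by omega⟩,
      ⟨h4, by omega⟩, ⟨h5, hk'⟩] 5) : Prop) ↔ vl z = (h3, h5) := e h3 h5 _ _
    have b3 : (z = (![⟨h0, by omega⟩, ⟨h1, by omega⟩, ⟨h2, by omega⟩, ⟨h3, by omega⟩, ⟨h4, by omega⟩,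
      ⟨h5, hk'⟩] 1, ![⟨h0, by omega⟩, ⟨h1, by omega⟩, ⟨h2, by omega⟩, ⟨h3, by omega⟩,
      ⟨h4, by omega⟩, ⟨h5, hk'⟩] 5) : Prop) ↔ vl z = (h1, h5) := e h1 h5 _ _
    rw [a1, a2, a3, b1, b2, b3]
    have c1 : vl z = (h1, h3) → vl z ≠ (0, n + 1) := by
      intro h6; rw [h6]; exact pne1 (by omega)
    have c2 : vl z = (h3, h5) → vl z ≠ (0, n + 1) := by
      intro h6; rw [h6]; exact pne1 (by omega)
    have c3 : vl z = (h1, h5) → vl z ≠ (0, n + 1) := by
      intro h6; rw [h6]; exact pne1 (by omega)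
    constructor
    · rintro ⟨h6 | ⟨⟨h6, h7, h8⟩, h9⟩, h10⟩
      · exact Or.inr h6
      · refine Or.inl ⟨⟨h9, h10⟩, ?_⟩
        rintro (h11 | h11 | h11)
        · exact h6 h11
        · exact h7 h11
        · exact h8 h11
    · rintro (⟨⟨h6, h7⟩, h8⟩ | h6)
      · exact ⟨Or.inr ⟨⟨fun h => h8 (Or.inl h), fun h => h8 (Or.inr (Or.inl h)),
          fun h => h8 (Or.inr (Or.inr h))⟩, h6⟩, h7⟩
      · refine ⟨Or.inl h6, ?_⟩
        rcases h6 with h6 | h6 | h6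
        · exact c1 h6
        · exact c2 h6
        · exact c3 h6

theorem reachable_of_R {n : ℕ} (hn : 1 ≤ n) {s t : BT} (h : R s t) :
    ∀ (hs : s.size = n) (ht : t.size = n) (cs : col false s) (ct : col false t),
      (twistGraph (n + 2)).Reachable ⟨DT n s, colourful_of_col hn hs cs⟩
        ⟨DT n t, colourful_of_col hn ht ct⟩ := by
  induction h with
  | rel x y h =>
    intro hs ht cs ct
    by_cases hxy : DT n x = DT n y
    · simp only [hxy]
      exact SimpleGraph.Reachable.refl _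
    · apply SimpleGraph.Adj.reachable
      rw [twistGraph, SimpleGraph.fromRel_adj]
      refine ⟨fun e => hxy (congrArg Subtype.val e), Or.inl ?_⟩
      exact isTwist_of_tw hn hs h
  | refl x => intro hs ht cs ct; exact SimpleGraph.Reachable.refl _
  | symm x y _ ih => intro hs ht cs ct; exact (ih ht hs ct cs).symm
  | trans x y z h1 h2 ih1 ih2 =>
    intro hs ht cs ct
    have h1' : R x y := h1
    have hy : y.size = n := h1'.size_eq.symm.trans hs
    have cy : col false y := (h1'.col_iff false).1 cs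
    exact (ih1 hs hy cs cy).trans (ih2 hy ht cy ct)

/-- the positive part -/
theorem connected_of_le {N : ℕ} (h3 : N % 3 = 2) (hN : 14 ≤ N) : (twistGraph N).Connected := by
  obtain ⟨n, rfl⟩ : ∃ n, N = n + 2 := ⟨N - 2, by omega⟩
  obtain ⟨m, rfl⟩ : ∃ m, n = 3 * m := ⟨n / 3, by omega⟩
  have hn : 1 ≤ 3 * m := by omega
  rw [SimpleGraph.connected_iff]
  constructor
  · rintro ⟨T, hT⟩ ⟨T', hT'⟩
    obtain ⟨s, hs, cs, rfl⟩ := tree_of_colourful hn (by omega) hT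
    obtain ⟨t, ht, ct, rfl⟩ := tree_of_colourful hn (by omega) hT'
    exact reachable_of_R hn (conn_false m (by omega) s t cs ct hs ht) hs ht cs ct
  · refine ⟨⟨DT (3 * m) (.node (rep 0) (rep (m - 1))), colourful_of_col (b := false) hn ?_ ?_⟩⟩
    · simp only [BT.size, rep_size]; omega
    · exact ⟨rep_col _, rep_col _⟩

end Pool.Agent.N372.TW
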