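import Pool.Agent.N372.TW.Main

/-!
# The twist graphs of the 8-gon and the 11-gon are not connected
-/

set_option autoImplicit false

namespace Pool.Agent.N372.TW

open Pool.Agent.R651.Asc Pool.Agent.R68.AscP

theorem jn_rg {n : ℕ} {t : BT} (ht : t.size = n) {a b : ℕ} (h : JN (E 0 t) a b) (hne : b ≠ a + 1) :
    (a, b) ∈ E 0 t ∧ b ≤ n + 1 := by
  rcases h with h | h
  · have := (full0 ht).rg _ h
    exact ⟨h, this.2.2⟩
  · exact absurd h hne

theorem no_cross {n : ℕ} {t : BT} (ht : t.size = n) {a b c d : ℕ} (h : (a, b) ∈ E 0 t)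
    (h' : (c, d) ∈ E 0 t) (h1 : a < c) (h2 : c < b) (h3 : b < d) : False :=
  (full0 ht).nc _ h _ h' (Or.inl ⟨h1, h2, h3⟩)

/-- The triangle over the base side with the apex `k` is kept by the twists. -/
theorem apex_iff {n : ℕ} {s t : BT} (hs : s.size = n) (ht : t.size = n) (cs : col false s)
    (ct : col false t) {h0 h1 h2 h3 h4 h5 : ℕ} (H : Sw (E 0 s) (E 0 t) h0 h1 h2 h3 h4 h5) {k : ℕ}
    (hk0 : k % 3 = 2) (hk1 : k < 8) (hk2 : n + 1 < k + 8) (hk3 : k < n + 1) :
    (JN (E 0 s) 0 k ∧ JN (E 0 s) k (n + 1)) ↔ (JN (E 0 t) 0 k ∧ JN (E 0 t) k (n + 1)) := by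
  have q0 := H.lt0
  have q1 := H.lt1
  have q2 := H.lt2
  have q3 := H.lt3
  have q4 := H.lt4
  have hn3 : n % 3 = 0 := by have := col_size s false cs; simpa [hs] using this
  -- the new pairs
  have m1 : (h1, h3) ∈ E 0 t := (H.sw _).2 (Or.inl (Or.inl rfl))
  have m2 : (h3, h5) ∈ E 0 t := (H.sw _).2 (Or.inl (Or.inr (Or.inl rfl)))
  have m3 : (h1, h5) ∈ E 0 t := (H.sw _).2 (Or.inl (Or.inr (Or.inr rfl)))
  have b05 : (h0, h5) ∈ E 0 s ∧ h5 ≤ n + 1 := jn_rg hs H.j5 (by omega)
  have b05' : (h0, h5) ∈ E 0 t := (H.sw _).2 (Or.inr ⟨⟨pne2 (by omega), pne1 (by omega),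
    pne2 (by omega)⟩, b05.1⟩)
  -- the colours
  have c01 := jn_ne cs q0 H.j0
  have c12 := jn_ne cs q1 H.j1
  have c23 := jn_ne cs q2 H.j2
  have c34 := jn_ne cs q3 H.j3
  have c45 := jn_ne cs q4 H.j4
  have c05 := jn_ne cs (by omega) H.j5
  have c02 := jn_ne cs (by omega) (Or.inl H.m0)
  have c24 := jn_ne cs (by omega) (Or.inl H.m1)
  have c04 := jn_ne cs (by omega) (Or.inl H.m2)
  have c13 := jn_ne ct (by omega) (Or.inl m1)
  have c35 := jn_ne ct (by omega) (Or.inl m2)
  have c15 := jn_ne ct (by omega) (Or.inl m3)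
  constructor
  · rintro ⟨p1, p2⟩
    constructor
    · rcases p1 with p1 | p1
      · left
        rw [H.sw]
        refine Or.inr ⟨⟨?_, ?_, ?_⟩, p1⟩
        · intro e
          have e1 := congrArg Prod.fst e
          have e2 := congrArg Prod.snd e
          simp only at e1 e2
          have p3 := (jn_rg hs p2 (by omega)).1
          exact no_cross hs H.m2 p3 (by omega) (by omega) (by omega)
        · refine pne1 (by omega)
        · intro e
          have e1 := congrArg Prod.fst e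
          have e2 := congrArg Prod.snd e
          simp only at e1 e2
          by_cases e3 : h5 = n + 1
          · omega
          · have p3 := (jn_rg hs p2 (by omega)).1
            exact no_cross hs b05.1 p3 (by omega) (by omega) (by omega)
      · exact Or.inr p1
    · rcases p2 with p2 | p2
      · left
        rw [H.sw]
        exact Or.inr ⟨⟨pne2 (by omega), pne2 (by omega), pne2 (by omega)⟩, p2⟩
      · exact Or.inr p2
  · rintro ⟨p1, p2⟩
    constructor
    · rcases p1 with p1 | p1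
      · rw [H.sw] at p1
        rcases p1 with (p1 | p1 | p1) | p1
        · exact absurd p1 (pne1 (by omega))
        · exact absurd p1 (pne1 (by omega))
        · exact absurd p1 (pne1 (by omega))
        · exact Or.inl p1.2
      · exact Or.inr p1
    · rcases p2 with p2 | p2
      · rw [H.sw] at p2
        rcases p2 with (p2 | p2 | p2) | p2
        · have e2 := congrArg Prod.snd p2
          simp only at e2
          omega
        · have e1 := congrArg Prod.fst p2
          have e2 := congrArg Prod.snd p2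
          simp only at e1 e2
          exact (no_cross ht (jn_rg ht p1 (by omega)).1 m3 (by omega) (by omega) (by omega)).elim
        · have e1 := congrArg Prod.fst p2
          have e2 := congrArg Prod.snd p2
          simp only at e1 e2
          by_cases e3 : h0 = 0
          · omega
          · exact (no_cross ht (jn_rg ht p1 (by omega)).1 b05' (by omega) (by omega)
              (by omega)).elim
        · exact Or.inl p2.2
      · exact Or.inr p2

theorem sw_of_hex {n : ℕ} (hn : 1 ≤ n) {s t : BT} (hs : s.size = n) (ht : t.size = n)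
    {h : Fin 6 → Fin (n + 2)} (hh : IsHexagon (DT n s) h) (hA : innerA h ⊆ DT n s)
    (hsw : DT n t = (DT n s \ innerA h) ∪ innerB h) :
    Sw (E 0 s) (E 0 t) (h 0) (h 1) (h 2) (h 3) (h 4) (h 5) := by
  obtain ⟨hm, g0, g1, g2, g3, g4, g5⟩ := hh
  rw [joined_iff hn hs] at g0 g1 g2 g3 g4 g5
  have m0 : (h 0, h 2) ∈ DT n s := hA (by simp [innerA])
  have m1 : (h 2, h 4) ∈ DT n s := hA (by simp [innerA])
  have m2 : (h 0, h 4) ∈ DT n s := hA (by simp [innerA])
  rw [mem_DT] at m0 m1 m2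
  refine ⟨g0.1, g1.1, g2.1, g3.1, g4.1, g0.2, g1.2, g2.2, g3.2, g4.2, g5.2, m0.1, m1.1, m2.1, ?_⟩
  have l0 := g0.1
  have l1 := g1.1
  have l2 := g2.1
  have l3 := g3.1
  have l4 := g4.1
  have l5 := (h 5).2
  rintro ⟨x, y⟩
  have key : ∀ (hx : x < n + 2) (hy : y < n + 2), (x, y) ≠ (0, n + 1) →
      ((x, y) ∈ E 0 t ↔ ((x, y) = ((h 1 : ℕ), (h 3 : ℕ)) ∨ (x, y) = ((h 3 : ℕ), (h 5 : ℕ)) ∨
        (x, y) = ((h 1 : ℕ), (h 5 : ℕ))) ∨
    (((x, y) ≠ ((h 0 : ℕ), (h 2 : ℕ)) ∧ (x, y) ≠ ((h 2 : ℕ), (h 4 : ℕ)) ∧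
      (x, y) ≠ ((h 0 : ℕ), (h 4 : ℕ))) ∧ (x, y) ∈ E 0 s)) := by
    intro hx hy hne
    have e0 : ∀ a b : Fin (n + 2), ((⟨x, hx⟩ : Fin (n + 2)), (⟨y, hy⟩ : Fin (n + 2))) = (a, b) ↔
        (x, y) = ((a : ℕ), (b : ℕ)) := by
      intro a b
      rw [Prod.mk.injEq, Prod.mk.injEq, Fin.ext_iff, Fin.ext_iff]
    have e1 : ((⟨x, hx⟩ : Fin (n + 2)), (⟨y, hy⟩ : Fin (n + 2))) ∈ DT n t ↔ (x, y) ∈ E 0 t := by
      rw [mem_DT]; exact ⟨fun h => h.1, fun h => ⟨h, hne⟩⟩
    have e2 : ((⟨x, hx⟩ : Fin (n + 2)), (⟨y, hy⟩ : Fin (n + 2))) ∈ DT n s ↔ (x, y) ∈ E 0 s := by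
      rw [mem_DT]; exact ⟨fun h => h.1, fun h => ⟨h, hne⟩⟩
    rw [← e1, hsw, Finset.mem_union, Finset.mem_sdiff, e2]
    simp only [innerA, innerB, Finset.mem_insert, Finset.mem_singleton, e0]
    constructor
    · rintro (⟨h6, h7⟩ | h6)
      · exact Or.inr ⟨⟨fun h => h7 (Or.inl h), fun h => h7 (Or.inr (Or.inl h)),
          fun h => h7 (Or.inr (Or.inr h))⟩, h6⟩
      · exact Or.inl h6
    · rintro (h6 | ⟨⟨h6, h7, h8⟩, h9⟩)
      · exact Or.inr h6
      · refine Or.inl ⟨h9, ?_⟩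
        rintro (h10 | h10 | h10)
        · exact h6 h10
        · exact h7 h10
        · exact h8 h10
  by_cases hne : (x, y) = (0, n + 1)
  · have b1 := base_in hn hs
    have b2 := base_in hn ht
    rw [hne]
    refine ⟨fun _ => Or.inr ⟨⟨?_, ?_, ?_⟩, b1⟩, fun _ => b2⟩
    · exact m0.2.symm
    · exact m1.2.symm
    · exact m2.2.symm
  by_cases hxy : x < n + 2 ∧ y < n + 2
  · exact key hxy.1 hxy.2 hne
  constructor
  · intro h6
    have := (full0 ht).rg _ h6
    simp only at this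
    omega
  · rintro ((h6 | h6 | h6) | ⟨-, h6⟩)
    · rw [Prod.mk.injEq] at h6; omega
    · rw [Prod.mk.injEq] at h6; omega
    · rw [Prod.mk.injEq] at h6; omega
    · have := (full0 hs).rg _ h6
      simp only at this
      omega

theorem sw_of_twist {n : ℕ} (hn : 1 ≤ n) {s t : BT} (hs : s.size = n) (ht : t.size = n)
    (h : IsTwist (DT n s) (DT n t)) : ∃ h0 h1 h2 h3 h4 h5 : ℕ,
      Sw (E 0 s) (E 0 t) h0 h1 h2 h3 h4 h5 ∨ Sw (E 0 t) (E 0 s) h0 h1 h2 h3 h4 h5 := by
  obtain ⟨h, hh, ⟨hA, hsw⟩ | ⟨hB, hsw⟩⟩ := h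
  · exact ⟨_, _, _, _, _, _, Or.inl (sw_of_hex hn hs ht hh hA hsw)⟩
  · refine ⟨_, _, _, _, _, _, Or.inr (sw_of_hex hn ht hs (h := h) ?_ ?_ ?_)⟩
    · obtain ⟨hm, g⟩ := hh
      have hlt : ∀ i j : Fin 6, i < j → h i < h j := fun i j hij => hm hij
      have keep : ∀ a b : Fin (n + 2), Joined (DT n s) a b → (a, b) ∉ innerB h →
          Joined (DT n t) a b := by
        intro a b hab hno
        refine ⟨hab.1, ?_⟩
        rcases hab.2 with h6 | h6
        · left
          rw [hsw, Finset.mem_union, Finset.mem_sdiff]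
          exact Or.inl ⟨h6, hno⟩
        · exact Or.inr h6
      have inj := hm.injective
      refine ⟨hm, keep _ _ g.1 ?_, keep _ _ g.2.1 ?_, keep _ _ g.2.2.1 ?_, keep _ _ g.2.2.2.1 ?_,
        keep _ _ g.2.2.2.2.1 ?_, keep _ _ g.2.2.2.2.2 ?_⟩ <;>
      · simp only [innerB, Finset.mem_insert, Finset.mem_singleton, Prod.mk.injEq, inj.eq_iff]
        decide
    · rw [hsw]
      exact Finset.subset_union_right
    · have nA : ∀ z ∈ DT n s, z ∉ innerA h := by
        intro z hz hzA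
        obtain ⟨hm, g⟩ := hh
        have m1 : (h 1, h 3) ∈ DT n s := hB (by simp [innerB])
        have m2 : (h 3, h 5) ∈ DT n s := hB (by simp [innerB])
        have q : ∀ i j : Fin 6, i < j → (h i : ℕ) < h j := fun i j hij => hm hij
        rw [mem_DT] at m1 m2 hz
        simp only [innerA, Finset.mem_insert, Finset.mem_singleton] at hzA
        rcases hzA with rfl | rfl | rfl
        · exact no_cross hs hz.1 m1.1 (q 0 1 (by decide)) (q 1 2 (by decide)) (q 2 3 (by decide))
        · exact no_cross hs m1.1 hz.1 (q 1 2 (by decide)) (q 2 3 (by decide)) (q 3 4 (by decide))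
        · exact no_cross hs hz.1 m2.1 (q 0 3 (by decide)) (q 3 4 (by decide)) (q 4 5 (by decide))
      ext z
      rw [hsw]
      simp only [Finset.mem_union, Finset.mem_sdiff]
      constructor
      · intro hz
        by_cases hzB : z ∈ innerB h
        · exact Or.inr hzB
        · exact Or.inl ⟨Or.inl ⟨hz, hzB⟩, nA z hz⟩
      · rintro (⟨h6 | h6, h7⟩ | h6)
        · exact h6.1
        · exact absurd h6 h7
        · exact hB h6

/-- the triangle over the base side has the apex `k` -/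
def HasApex (n k : ℕ) (T : Finset (Fin (n + 2) × Fin (n + 2))) : Prop :=
  ∃ t : BT, t.size = n ∧ DT n t = T ∧ JN (E 0 t) 0 k ∧ JN (E 0 t) k (n + 1)

theorem hasApex_iff {n k : ℕ} {t : BT} (hn : 1 ≤ n) (ht : t.size = n) :
    HasApex n k (DT n t) ↔ JN (E 0 t) 0 k ∧ JN (E 0 t) k (n + 1) := by
  constructor
  · rintro ⟨u, hu, h1, h2⟩
    have : u = t := DT_inj hn hu ht h1
    rwa [this] at h2
  · intro h
    exact ⟨t, ht, rfl, h⟩

theorem reach_apex {n k : ℕ} (hn : 1 ≤ n) (h3 : n % 3 = 0) (hk0 : k % 3 = 2) (hk1 : k < 8)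
    (hk2 : n + 1 < k + 8) (hk3 : k < n + 1)
    {T T' : {T : Finset (Fin (n + 2) × Fin (n + 2)) // IsColourful (n + 2) T}}
    (h : (twistGraph (n + 2)).Reachable T T') : HasApex n k T.1 ↔ HasApex n k T'.1 := by
  obtain ⟨w⟩ := h
  induction w with
  | nil => rfl
  | @cons u v w h p ih =>
    rw [← ih]
    rw [twistGraph, SimpleGraph.fromRel_adj] at h
    obtain ⟨s, hs, cs, es⟩ := tree_of_colourful hn h3 u.2
    obtain ⟨t, ht, ct, et⟩ := tree_of_colourful hn h3 v.2
    have h' := h.2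
    rw [← es, ← et, hasApex_iff hn hs, hasApex_iff hn ht] 
    rw [← es, ← et] at h'
    rcases h' with h' | h'
    · obtain ⟨h0, h1, h2, h3, h4, h5, h6 | h6⟩ := sw_of_twist hn hs ht h'
      · exact apex_iff hs ht cs ct h6 hk0 hk1 hk2 hk3
      · exact (apex_iff ht hs ct cs h6 hk0 hk1 hk2 hk3).symm
    · obtain ⟨h0, h1, h2, h3, h4, h5, h6 | h6⟩ := sw_of_twist hn ht hs h'
      · exact (apex_iff ht hs ct cs h6 hk0 hk1 hk2 hk3).symm
      · exact apex_iff hs ht cs ct h6 hk0 hk1 hk2 hk3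

theorem apex_node {n k : ℕ} {l r : BT} (h : (BT.node l r).size = n) (h0 : 0 < k) (h1 : k < n + 1)
    (hk : JN (E 0 (.node l r)) 0 k ∧ JN (E 0 (.node l r)) k (n + 1)) : k = l.size + 1 := by
  obtain ⟨p1, p2⟩ := hk
  have hsz := h
  simp only [BT.size] at hsz
  rcases lt_trichotomy k (l.size + 1) with hlt | heq | hlt
  · exfalso
    have m : (0, l.size + 1) ∈ E 0 (.node l r) := by
      rw [mem_node]
      right; left
      have := base_mem (i := 0) (t := l) (by omega)
      rwa [Nat.zero_add] at this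
    exact no_cross h m (jn_rg h p2 (by omega)).1 (by omega) (by omega) (by omega)
  · exact heq
  · exfalso
    have m : (l.size + 1, n + 1) ∈ E 0 (.node l r) := by
      rw [mem_node]
      right; right
      have := base_mem (i := 0 + l.size + 1) (t := r) (by omega)
      have e : ((0 + l.size + 1, 0 + l.size + 1 + r.size + 1) : ℕ × ℕ) = (l.size + 1, n + 1) :=
        Prod.ext (by simp only; omega) (by simp only; omega)
      rw [e] at this
      exact this
    exact no_cross h (jn_rg h p1 (by omega)).1 m (by omega) (by omega) (by omega)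

theorem node_apex {n k : ℕ} {l r : BT} (h : (BT.node l r).size = n) (hk : k = l.size + 1) :
    JN (E 0 (.node l r)) 0 k ∧ JN (E 0 (.node l r)) k (n + 1) := by
  have hsz := h
  simp only [BT.size] at hsz
  constructor
  · have := jn_mono (T := E 0 (.node l r)) (fun x hx => mem_node.2 (Or.inr (Or.inl hx)))
      (base_jn 0 l)
    rwa [show 0 + l.size + 1 = k by omega] at this
  · have := jn_mono (T := E 0 (.node l r)) (fun x hx => mem_node.2 (Or.inr (Or.inr hx)))
      (base_jn (0 + l.size + 1) r)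
    rwa [show 0 + l.size + 1 + r.size + 1 = n + 1 by omega, show 0 + l.size + 1 = k by omega]
      at this

theorem not_connected {n k a b a' b' : ℕ} (hn : 1 ≤ n) (h3 : n % 3 = 0) (hk0 : k % 3 = 2)
    (hk1 : k < 8) (hk2 : n + 1 < k + 8) (hk3 : k < n + 1)
    (h1 : (BT.node (rep a) (rep b)).size = n) (h2 : (BT.node (rep a') (rep b')).size = n)
    (hk4 : k = (rep a).size + 1) (hk5 : k ≠ (rep a').size + 1) :
    ¬ (twistGraph (n + 2)).Connected := by
  intro hc
  have c1 : col false (BT.node (rep a) (rep b)) := ⟨rep_col _, rep_col _⟩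
  have c2 : col false (BT.node (rep a') (rep b')) := ⟨rep_col _, rep_col _⟩
  have h := reach_apex hn h3 hk0 hk1 hk2 hk3 (hc.preconnected ⟨_, colourful_of_col hn h1 c1⟩
    ⟨_, colourful_of_col hn h2 c2⟩)
  rw [hasApex_iff hn h1, hasApex_iff hn h2] at h
  exact hk5 (apex_node h2 (by omega) hk3 (h.1 (node_apex h1 hk4)))

theorem not_connected_8 : ¬ (twistGraph 8).Connected := by
  refine not_connected (n := 6) (k := 2) (a := 0) (b := 1) (a' := 1) (b' := 0) ?_ ?_ ?_ ?_ ?_ ?_ ?_ ?_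
    ?_ ?_ <;> simp [BT.size, rep_size]

theorem not_connected_11 : ¬ (twistGraph 11).Connected := by
  refine not_connected (n := 9) (k := 5) (a := 1) (b := 1) (a' := 0) (b' := 2) ?_ ?_ ?_ ?_ ?_ ?_ ?_ ?_
    ?_ ?_ <;> simp [BT.size, rep_size]

theorem connected_iff {N : ℕ} (hN : 8 ≤ N) (h3 : N % 3 = 2) :
    (twistGraph N).Connected ↔ 14 ≤ N := by
  constructor
  · intro h
    by_contra hlt
    have : N = 8 ∨ N = 11 := by omega
    rcases this with rfl | rfl
    · exact not_connected_8 h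
    · exact not_connected_11 h
  · intro h
    exact connected_of_le h3 h

end Pool.Agent.N372.TW
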