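import Pool.Agent.R68.Asc.Polygon

/-!
# Twists of the binary trees that code the colourful triangulations
-/

set_option autoImplicit false

namespace Pool.Agent.N372.TW

open Pool.Agent.R651.Asc Pool.Agent.R68.AscP

/-- the type of a tree: `col false` trees code polygons with `3 m + 2` vertices, `col true` trees
code polygons with `3 m + 3` vertices -/
def col : Bool → BT → Prop
  | false, .leaf => True
  | true, .leaf => False
  | b, .node l r => col (!b) l ∧ col (!b) r

theorem col_size : ∀ (t : BT) (b : Bool), col b t → t.size % 3 = if b then 1 else 0 := by
  intro t
  induction t with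
  | leaf => intro b h; cases b <;> simp_all [col, BT.size]
  | node l r ihl ihr =>
    intro b h
    cases b with
    | false =>
      have h1 := ihl true h.1
      have h2 := ihr true h.2
      simp only [BT.size, if_true] at h1 h2 ⊢
      simp
      omega
    | true =>
      have h1 := ihl false h.1
      have h2 := ihr false h.2
      simp only [BT.size] at h1 h2 ⊢
      simp at h1 h2 ⊢
      omega

/-- one twist at any place of the tree -/
inductive Tw : BT → BT → Prop
  | root (a b c d e : BT) : Tw (.node (.node (.node a b) (.node c d)) e)
      (.node a (.node (.node b c) (.node d e)))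
  | left {l l' : BT} (r : BT) : Tw l l' → Tw (.node l r) (.node l' r)
  | right (l : BT) {r r' : BT} : Tw r r' → Tw (.node l r) (.node l r')

/-- connected by twists -/
def R : BT → BT → Prop := Relation.EqvGen Tw

theorem R.refl (t : BT) : R t t := Relation.EqvGen.refl t
theorem R.symm {s t : BT} (h : R s t) : R t s := Relation.EqvGen.symm _ _ h
theorem R.trans {s t u : BT} (h : R s t) (h' : R t u) : R s u := Relation.EqvGen.trans _ _ _ h h'
theorem R.tw {s t : BT} (h : Tw s t) : R s t := Relation.EqvGen.rel _ _ h

theorem R.left {l l' : BT} (r : BT) (h : R l l') : R (.node l r) (.node l' r) := by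
  induction h with
  | rel x y h => exact R.tw (Tw.left r h)
  | refl x => exact R.refl _
  | symm x y _ ih => exact ih.symm
  | trans x y z _ _ ih1 ih2 => exact ih1.trans ih2

theorem R.right (l : BT) {r r' : BT} (h : R r r') : R (.node l r) (.node l r') := by
  induction h with
  | rel x y h => exact R.tw (Tw.right l h)
  | refl x => exact R.refl _
  | symm x y _ ih => exact ih.symm
  | trans x y z _ _ ih1 ih2 => exact ih1.trans ih2

theorem R.node {l l' r r' : BT} (h : R l l') (h' : R r r') : R (.node l r) (.node l' r') :=
  (R.left r h).trans (R.right l' h')

theorem tw_size {s t : BT} (h : Tw s t) : s.size = t.size := by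
  induction h with
  | root a b c d e => simp only [BT.size]; omega
  | left r _ ih => simp only [BT.size]; omega
  | right l _ ih => simp only [BT.size]; omega

theorem tw_col {s t : BT} (h : Tw s t) : ∀ b, col b s ↔ col b t := by
  induction h with
  | root a b c d e =>
    intro x
    cases x <;> simp only [col, Bool.not_true, Bool.not_false] <;> tauto
  | left r _ ih =>
    intro x
    cases x <;> simp only [col, ih]
  | right l _ ih =>
    intro x
    cases x <;> simp only [col, ih]

theorem R.col_iff {s t : BT} (h : R s t) : ∀ b, col b s ↔ col b t := by
  induction h with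
  | rel x y h => exact tw_col h
  | refl x => intro b; rfl
  | symm x y _ ih => intro b; exact (ih b).symm
  | trans x y z _ _ ih1 ih2 => intro b; exact (ih1 b).trans (ih2 b)

theorem R.size_eq {s t : BT} (h : R s t) : s.size = t.size := by
  induction h with
  | rel x y h => exact tw_size h
  | refl x => rfl
  | symm x y _ ih => exact ih.symm
  | trans x y z _ _ ih1 ih2 => exact ih1.trans ih2

theorem size_zero {t : BT} (h : t.size = 0) : t = .leaf := by
  cases t with
  | leaf => rfl
  | node l r => simp only [BT.size] at h; omega

/-- the left subtree can be made a leaf -/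
theorem to_left (n : ℕ) : ∀ l r : BT, l.size = n → col true (.node l r) →
    ∃ u : BT, R (.node l r) (.node .leaf u) := by
  induction n using Nat.strong_induction_on with
  | _ n ih =>
  intro l r hl hc
  cases l with
  | leaf => exact ⟨r, R.refl _⟩
  | node x y =>
    obtain ⟨⟨hx, hy⟩, hr⟩ := hc
    cases x with
    | leaf => exact absurd hx (by simp [col])
    | node a b =>
      cases y with
      | leaf => exact absurd hy (by simp [col])
      | node c d =>
        have h1 := R.tw (Tw.root a b c d r)
        have h2 : col true (.node a (.node (.node b c) (.node d r))) :=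
          ((tw_col (Tw.root a b c d r)) true).1 ⟨⟨hx, hy⟩, hr⟩
        obtain ⟨u, hu⟩ := ih a.size (by rw [← hl]; simp only [BT.size]; omega) a _ rfl h2
        exact ⟨u, h1.trans hu⟩

/-- the right subtree can be made a leaf -/
theorem to_right (n : ℕ) : ∀ l r : BT, r.size = n → col true (.node l r) →
    ∃ u : BT, R (.node l r) (.node u .leaf) := by
  induction n using Nat.strong_induction_on with
  | _ n ih =>
  intro l r hr hc
  cases r with
  | leaf => exact ⟨l, R.refl _⟩
  | node x y =>
    obtain ⟨hl, hx, hy⟩ := hc
    cases x with
    | leaf => exact absurd hx (by simp [col])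
    | node b c =>
      cases y with
      | leaf => exact absurd hy (by simp [col])
      | node d e =>
        have h1 := (R.tw (Tw.root l b c d e)).symm
        have h2 : col true (.node (.node (.node l b) (.node c d)) e) :=
          ((tw_col (Tw.root l b c d e)) true).2 ⟨hl, hx, hy⟩
        obtain ⟨u, hu⟩ := ih e.size (by rw [← hr]; simp only [BT.size]; omega) _ e rfl h2
        exact ⟨u, h1.trans hu⟩

/-- all trees of type `true` and of the same size are connected by twists -/
theorem conn_true (m : ℕ) : ∀ s t : BT, col true s → col true t → s.size = 3 * m + 1 →
    t.size = 3 * m + 1 → R s t := by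
  induction m using Nat.strong_induction_on with
  | _ m ih =>
  rcases Nat.eq_zero_or_pos m with rfl | hm
  · intro s t _ _ h1 h2
    cases s with
    | leaf => simp [BT.size] at h1
    | node a b =>
      cases t with
      | leaf => simp [BT.size] at h2
      | node c d =>
        simp only [BT.size] at h1 h2
        rw [size_zero (t := a) (by omega), size_zero (t := b) (by omega),
          size_zero (t := c) (by omega), size_zero (t := d) (by omega)]
        exact R.refl _
  -- normal form
  have key : ∀ s : BT, col true s → s.size = 3 * m + 1 → ∃ z : BT, col true z ∧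
      z.size = 3 * (m - 1) + 1 ∧ R s (.node (.node (.node .leaf .leaf) z) .leaf) := by
    intro s hs hsz
    cases s with
    | leaf => simp [BT.size] at hsz
    | node l r =>
      obtain ⟨u, hu⟩ := to_left _ l r rfl hs
      have hu1 := hu.size_eq
      have hu2 := (hu.col_iff true).1 hs
      rw [hsz] at hu1
      simp only [BT.size] at hu1
      cases u with
      | leaf => simp only [BT.size] at hu1; omega
      | node x y =>
        obtain ⟨-, hx, hy⟩ := hu2
        have hx1 := col_size x true hx
        have hy1 := col_size y true hy
        simp only [if_true] at hx1 hy1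
        simp only [BT.size] at hu1
        cases x with
        | leaf => exact absurd hx (by simp [col])
        | node x1 x2 =>
          cases y with
          | leaf => exact absurd hy (by simp [col])
          | node y1 y2 =>
            obtain ⟨a, ha⟩ := to_left _ x1 x2 rfl hx
            obtain ⟨b, hb⟩ := to_right _ y1 y2 rfl hy
            have h1 : R (.node .leaf (.node (.node x1 x2) (.node y1 y2)))
                (.node .leaf (.node (.node .leaf a) (.node b .leaf))) :=
              R.right _ (R.node ha hb)
            have h2 : R (.node .leaf (.node (.node .leaf a) (.node b .leaf)))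
                (.node (.node (.node .leaf .leaf) (.node a b)) .leaf) :=
              (R.tw (Tw.root .leaf .leaf a b .leaf)).symm
            have h3 := hu.trans (h1.trans h2)
            have h4 := h3.size_eq
            rw [hsz] at h4
            simp only [BT.size] at h4
            have h5 := (h3.col_iff true).1 hs
            exact ⟨.node a b, h5.1.2, by simp only [BT.size]; omega, h3⟩
  intro s t hs ht h1 h2
  obtain ⟨z, hz1, hz2, hz3⟩ := key s hs h1
  obtain ⟨z', hz1', hz2', hz3'⟩ := key t ht h2
  have := ih (m - 1) (by omega) z z' hz1 hz1' hz2 hz2'
  exact hz3.trans ((R.left _ (R.right _ this)).trans hz3'.symm)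

/-- a tree of type `true` and size `3 m + 1` -/
def rep : ℕ → BT
  | 0 => .node .leaf .leaf
  | m + 1 => .node .leaf (.node (.node .leaf .leaf) (rep m))

theorem rep_col (m : ℕ) : col true (rep m) := by
  induction m with
  | zero => simp [rep, col]
  | succ m ih => simpa [rep, col] using ih

theorem rep_size (m : ℕ) : (rep m).size = 3 * m + 1 := by
  induction m with
  | zero => simp [rep, BT.size]
  | succ m ih => simp only [rep, BT.size, ih]; omega

/-- two classes of trees of type `false` whose indices differ by at least two are connected -/
theorem class_step {p q p' q' : ℕ} (h : p + q = p' + q') (h2 : p' + 2 ≤ p) :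
    R (.node (rep p) (rep q)) (.node (rep p') (rep q')) := by
  have h1 : R (rep p) (.node (.node (rep p') (rep (p - p' - 2))) (.node (rep 0) (rep 0))) := by
    refine conn_true p _ _ (rep_col p) ?_ (rep_size p) ?_
    · simp only [col, Bool.not_true, Bool.not_false]
      exact ⟨⟨rep_col _, rep_col _⟩, rep_col _, rep_col _⟩
    · simp only [BT.size, rep_size]; omega
  have h3 := R.tw (Tw.root (rep p') (rep (p - p' - 2)) (rep 0) (rep 0) (rep q))
  have h4 : R (.node (.node (rep (p - p' - 2)) (rep 0)) (.node (rep 0) (rep q))) (rep q') := by
    refine conn_true q' _ _ ?_ (rep_col q') ?_ (rep_size q')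
    · simp only [col, Bool.not_true, Bool.not_false]
      exact ⟨⟨rep_col _, rep_col _⟩, rep_col _, rep_col _⟩
    · simp only [BT.size, rep_size]; omega
  exact (R.left _ h1).trans (h3.trans (R.right _ h4))

/-- all trees of type `false` and of the same size `3 m`, `m ≥ 4`, are connected by twists -/
theorem conn_false (m : ℕ) (hm : 4 ≤ m) (s t : BT) (hs : col false s) (ht : col false t)
    (h1 : s.size = 3 * m) (h2 : t.size = 3 * m) : R s t := by
  have key : ∀ s : BT, col false s → s.size = 3 * m → R s (.node (rep 0) (rep (m - 1))) := by
    intro s hs hsz
    cases s with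
    | leaf => simp only [BT.size] at hsz; omega
    | node x y =>
      obtain ⟨hx, hy⟩ := hs
      have hx1 := col_size x true hx
      have hy1 := col_size y true hy
      simp only [if_true] at hx1 hy1
      simp only [BT.size] at hsz
      obtain ⟨p, hp⟩ : ∃ p, x.size = 3 * p + 1 := ⟨x.size / 3, by omega⟩
      obtain ⟨q, hq⟩ : ∃ q, y.size = 3 * q + 1 := ⟨y.size / 3, by omega⟩
      have hpq : p + q = m - 1 := by omega
      have h3 : R (.node x y) (.node (rep p) (rep q)) :=
        R.node (conn_true p _ _ hx (rep_col p) hp (rep_size p))
          (conn_true q _ _ hy (rep_col q) hq (rep_size q))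
      refine h3.trans ?_
      rcases Nat.lt_or_ge p 2 with hlt | hge
      · rcases Nat.eq_zero_or_pos p with rfl | hpos
        · have : q = m - 1 := by omega
          rw [this]
          exact R.refl _
        · obtain rfl : p = 1 := by omega
          have e1 := class_step (p := 3) (q := m - 4) (p' := 1) (q' := q) (by omega) (by omega)
          have e2 := class_step (p := 3) (q := m - 4) (p' := 0) (q' := m - 1) (by omega) (by omega)
          exact e1.symm.trans e2
      · exact class_step (by omega) (by omega)
  exact (key s hs h1).trans (key t ht h2).symm

end Pool.Agent.N372.TW
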